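import Mathlib

namespace Pool.Agent.Results.MP_baa74b_lc.Sep

open scoped ENNReal

/-- A `(μ+1)` memory-restricted black-box algorithm on the search space `S`. -/
structure Alg (S : Type) (μ : ℕ) where
  init : PMF (Fin μ → S)
  sample : Multiset (S × ℝ) → PMF S
  remove : Multiset (S × ℝ) → PMF (S × ℝ)
  remove_mem : ∀ X : Multiset (S × ℝ), X ≠ 0 → ∀ p ∈ (remove X).support, p ∈ X

/-- One round; a state is (list of all queries so far, stored multiset). -/
noncomputable def step {S : Type} [DecidableEq S] {μ : ℕ} (A : Alg S μ) (f : S → ℝ)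
    (s : List S × Multiset (S × ℝ)) : PMF (List S × Multiset (S × ℝ)) :=
  (A.sample s.2).bind fun y =>
    (A.remove ((y, f y) ::ₘ s.2)).map fun p => (s.1 ++ [y], ((y, f y) ::ₘ s.2).erase p)

/-- Distribution of the state after the initialisation and `k` rounds. -/
noncomputable def run {S : Type} [DecidableEq S] {μ : ℕ} (A : Alg S μ) (f : S → ℝ) :
    ℕ → PMF (List S × Multiset (S × ℝ))
  | 0 => A.init.map fun x =>
      (List.ofFn x, Multiset.map (fun a => (a, f a)) (Multiset.ofList (List.ofFn x)))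
  | k + 1 => (run A f k).bind (step A f)

/-- `P(T > t)`: none of the first `t` queries is a maximiser of `f`. -/
noncomputable def tail {S : Type} [DecidableEq S] {μ : ℕ} (A : Alg S μ) (f : S → ℝ) (t : ℕ) :
    ℝ≥0∞ :=
  (run A f t).toOuterMeasure {s | ∀ y ∈ s.1.take t, ¬ ∀ z, f z ≤ f y}

/-- `E[T] = ∑ P(T > t)`. -/
noncomputable def ET {S : Type} [DecidableEq S] {μ : ℕ} (A : Alg S μ) (f : S → ℝ) : ℝ≥0∞ :=
  ∑' t, tail A f t

/-- The `(μ+1)` memory-restricted black-box complexity of the class `F`. -/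
noncomputable def C (S : Type) [DecidableEq S] (μ : ℕ) (F : Set (S → ℝ)) : ℝ≥0∞ :=
  ⨅ A : Alg S μ, ⨆ f ∈ F, ET A f

section general
variable {S : Type} [DecidableEq S] {μ : ℕ} (A : Alg S μ) (f : S → ℝ)

lemma om_le_one {α : Type} (p : PMF α) (s : Set α) : p.toOuterMeasure s ≤ 1 := by
  have h : p.toOuterMeasure Set.univ = 1 :=
    (p.toOuterMeasure_apply_eq_one_iff _).2 (Set.subset_univ _)
  rw [← h]
  exact p.toOuterMeasure.mono (Set.subset_univ _)

lemma step_supp {s s' : List S × Multiset (S × ℝ)} (h : s' ∈ (step A f s).support) :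
    ∃ y, s'.1 = s.1 ++ [y] := by
  unfold step at h
  rw [PMF.mem_support_bind_iff] at h
  obtain ⟨y, -, h⟩ := h
  rw [PMF.mem_support_map_iff] at h
  obtain ⟨p, -, rfl⟩ := h
  exact ⟨y, rfl⟩

lemma run_len (k : ℕ) : ∀ s ∈ (run A f k).support, s.1.length = μ + k := by
  induction k with
  | zero =>
    intro s hs
    unfold run at hs
    rw [PMF.mem_support_map_iff] at hs
    obtain ⟨x, -, rfl⟩ := hs
    simp
  | succ k ih =>
    intro s hs
    unfold run at hs
    rw [PMF.mem_support_bind_iff] at hs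
    obtain ⟨s0, h0, h⟩ := hs
    obtain ⟨y, hy⟩ := step_supp A f h
    rw [hy, List.length_append, ih s0 h0]
    simp [Nat.add_assoc]

lemma run_succ_take (k n : ℕ) (hn : n ≤ μ + k) (Q : List S → Prop) :
    (run A f (k + 1)).toOuterMeasure {s | Q (s.1.take n)} =
      (run A f k).toOuterMeasure {s | Q (s.1.take n)} := by
  conv_lhs => unfold run
  rw [PMF.toOuterMeasure_bind_apply, PMF.toOuterMeasure_apply]
  refine tsum_congr fun s => ?_
  by_cases hs : s ∈ (run A f k).support
  · have hl := run_len A f k s hs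
    by_cases hQ : Q (s.1.take n)
    · rw [Set.indicator_of_mem (by exact hQ)]
      have : (step A f s).toOuterMeasure {s | Q (s.1.take n)} = 1 := by
        rw [PMF.toOuterMeasure_apply_eq_one_iff]
        intro s' hs'
        obtain ⟨y, hy⟩ := step_supp A f hs'
        show Q (s'.1.take n)
        rw [hy, List.take_append_of_le_length (by omega)]
        exact hQ
      rw [this, mul_one]
    · rw [Set.indicator_of_notMem (by exact hQ)]
      have : (step A f s).toOuterMeasure {s | Q (s.1.take n)} = 0 := by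
        rw [PMF.toOuterMeasure_apply_eq_zero_iff, Set.disjoint_left]
        intro s' hs' h
        obtain ⟨y, hy⟩ := step_supp A f hs'
        have h' : Q (s'.1.take n) := h
        rw [hy, List.take_append_of_le_length (by omega)] at h'
        exact hQ h'
      rw [this, mul_zero]
  · have h0 : (run A f k) s = 0 := by simpa using hs
    rw [h0, zero_mul]
    by_cases hQ : Q (s.1.take n)
    · rw [Set.indicator_of_mem (by exact hQ), h0]
    · rw [Set.indicator_of_notMem (by exact hQ)]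

lemma run_take (j k n : ℕ) (hjk : j ≤ k) (hn : n ≤ μ + j) (Q : List S → Prop) :
    (run A f k).toOuterMeasure {s | Q (s.1.take n)} =
      (run A f j).toOuterMeasure {s | Q (s.1.take n)} := by
  induction k, hjk using Nat.le_induction with
  | base => rfl
  | succ k hk ih => rw [run_succ_take A f k n (by omega), ih]

/-- The probability that `o` is among the first `μ + 2` queries. -/
noncomputable def W (o : S) : ℝ≥0∞ := (run A f 2).toOuterMeasure {s | o ∈ s.1}

lemma one_le_tail (o : S) (ho : ∀ y, (∀ z, f z ≤ f y) → y = o) (t : ℕ) (ht : t ≤ μ + 2) :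
    1 ≤ tail A f t + W A f o := by
  have h1 : (run A f t).toOuterMeasure {s | o ∈ s.1.take t} ≤ W A f o := by
    have e : (run A f t).toOuterMeasure {s | o ∈ s.1.take t} =
        (run A f 2).toOuterMeasure {s | o ∈ s.1.take t} := by
      rcases le_total t 2 with h | h
      · exact (run_take A f t 2 t h (by omega) (fun l => o ∈ l)).symm
      · exact run_take A f 2 t t h ht (fun l => o ∈ l)
    rw [e]
    exact (run A f 2).toOuterMeasure.mono fun s hs => List.mem_of_mem_take hs
  have h : (run A f t).toOuterMeasure Set.univ = 1 :=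
    ((run A f t).toOuterMeasure_apply_eq_one_iff _).2 (Set.subset_univ _)
  rw [← h]
  refine le_trans ?_ (add_le_add le_rfl h1)
  unfold tail
  refine le_trans ((run A f t).toOuterMeasure.mono ?_) (MeasureTheory.measure_union_le _ _)
  intro s _
  by_cases hs : o ∈ s.1.take t
  · exact Or.inr hs
  · refine Or.inl fun y hy hm => hs ?_
    rw [← ho y hm]; exact hy

lemma ET_lower (o : S) (ho : ∀ y, (∀ z, f z ≤ f y) → y = o) :
    ((μ + 3 : ℕ) : ℝ≥0∞) ≤ ET A f + (μ + 3 : ℕ) * W A f o := by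
  have h1 : ∑ t ∈ Finset.range (μ + 3), (1 : ℝ≥0∞) ≤
      ∑ t ∈ Finset.range (μ + 3), (tail A f t + W A f o) :=
    Finset.sum_le_sum fun t ht => one_le_tail A f o ho t (by
      have := Finset.mem_range.1 ht; omega)
  rw [Finset.sum_add_distrib] at h1
  simp only [Finset.sum_const, Finset.card_range, nsmul_eq_mul, mul_one] at h1
  exact h1.trans (add_le_add (ENNReal.sum_le_tsum _) le_rfl)

lemma step_hit (o : S) (s : List S × Multiset (S × ℝ)) (hs : o ∉ s.1) :
    (step A f s).toOuterMeasure {s | o ∈ s.1} ≤ A.sample s.2 o := by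
  unfold step
  rw [PMF.toOuterMeasure_bind_apply]
  rw [tsum_eq_single o]
  · exact mul_le_of_le_one_right' (om_le_one _ _)
  · intro y hy
    refine mul_eq_zero_of_right _ ?_
    rw [PMF.toOuterMeasure_apply_eq_zero_iff, Set.disjoint_left]
    intro s' hs' h
    rw [PMF.mem_support_map_iff] at hs'
    obtain ⟨p, -, rfl⟩ := hs'
    simp [hs, Ne.symm hy] at h

lemma two_hit (g : S → ℝ) (o : S) (hg : ∀ y, y ≠ o → f y = g y) (l : List S) :
    ((step A f (l, Multiset.map (fun a => (a, f a)) (Multiset.ofList l))).bind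
      (step A f)).toOuterMeasure {s | o ∈ s.1} ≤
    (if o ∈ Multiset.ofList l then 1 else 0) +
      A.sample (Multiset.map (fun a => (a, g a)) (Multiset.ofList l)) o +
      ∑' y, A.sample (Multiset.map (fun a => (a, g a)) (Multiset.ofList l)) y *
        ∑' p, A.remove (Multiset.map (fun a => (a, g a)) (y ::ₘ Multiset.ofList l)) p *
          A.sample ((Multiset.map (fun a => (a, g a)) (y ::ₘ Multiset.ofList l)).erase p) o := by
  by_cases hl : o ∈ l
  · rw [if_pos (Multiset.mem_coe.2 hl)]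
    exact (om_le_one _ _).trans (le_add_right (le_add_right le_rfl))
  rw [if_neg (fun h => hl (Multiset.mem_coe.1 h)), zero_add]
  have e : Multiset.map (fun a => (a, f a)) (Multiset.ofList l) =
      Multiset.map (fun a => (a, g a)) (Multiset.ofList l) := by
    refine Multiset.map_congr rfl fun a ha => ?_
    rw [hg a fun h => hl (by rw [← h]; exact Multiset.mem_coe.1 ha)]
  rw [e]
  set X := Multiset.map (fun a => (a, g a)) (Multiset.ofList l) with hX
  conv_lhs => enter [1, 1, 1]; unfold step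
  rw [PMF.bind_bind, PMF.toOuterMeasure_bind_apply]
  have e2 : A.sample X o = ∑' y, if y = o then A.sample X o else 0 := by
    rw [tsum_ite_eq]
  conv_rhs => enter [1]; rw [e2]
  rw [← ENNReal.tsum_add]
  refine ENNReal.tsum_le_tsum fun y => ?_
  by_cases hy : y = o
  · rw [if_pos hy, hy]
    exact le_add_right (mul_le_of_le_one_right' (om_le_one _ _))
  · rw [if_neg hy, zero_add]
    refine mul_le_mul_right ?_ _
    rw [PMF.bind_map, PMF.toOuterMeasure_bind_apply, Multiset.map_cons, ← hX, hg y hy]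
    refine ENNReal.tsum_le_tsum fun p => mul_le_mul_right ?_ _
    exact step_hit A f o _ (by simp [hl, Ne.symm hy])

end general

section concrete
variable (μ M : ℕ) [NeZero M]

abbrev SS := Fin (μ + 1) ⊕ ZMod M
abbrev VV := Fin (μ + 1) → ZMod M

variable {μ M}

def gg (v : VV μ M) : SS μ M → ℝ
  | Sum.inl i => ((v i).val : ℝ)
  | Sum.inr _ => -1

def ff (v : VV μ M) : SS μ M → ℝ
  | Sum.inl i => ((v i).val : ℝ)
  | Sum.inr s => if s = ∑ i, v i then (M : ℝ) else -1

lemma ff_eq_gg (v : VV μ M) (y : SS μ M) (hy : y ≠ Sum.inr (∑ i, v i)) : ff v y = gg v y := by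
  rcases y with i | s
  · rfl
  · have : s ≠ ∑ i, v i := fun h => hy (by rw [h])
    simp [ff, gg, this]

lemma ff_lt (v : VV μ M) (y : SS μ M) (hy : y ≠ Sum.inr (∑ i, v i)) : ff v y < M := by
  rw [ff_eq_gg v y hy]
  rcases y with i | s
  · show ((v i).val : ℝ) < M
    exact_mod_cast ZMod.val_lt (v i)
  · show (-1 : ℝ) < M
    have : (0 : ℝ) ≤ M := Nat.cast_nonneg _
    linarith

lemma ff_opt (v : VV μ M) : ff v (Sum.inr (∑ i, v i)) = M := by simp [ff]

lemma ff_max (v : VV μ M) (y : SS μ M) (h : ∀ z, ff v z ≤ ff v y) : y = Sum.inr (∑ i, v i) := by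
  by_contra hy
  have h1 := ff_lt v y hy
  have h2 := h (Sum.inr (∑ i, v i))
  rw [ff_opt] at h2
  linarith

lemma ff_max' (v : VV μ M) (z : SS μ M) : ff v z ≤ ff v (Sum.inr (∑ i, v i)) := by
  by_cases hz : z = Sum.inr (∑ i, v i)
  · rw [hz]
  · rw [ff_opt]; exact (ff_lt v z hz).le

lemma indep (φ : VV μ M → ZMod M → ℝ≥0∞) (j : Fin (μ + 1))
    (hφ : ∀ v a, φ (v + Pi.single j a) = φ v) (c : ℝ≥0∞) (hc : ∀ v, ∑ s, φ v s ≤ c) :
    (M : ℝ≥0∞) * ∑ v : VV μ M, φ v (∑ i, v i) ≤ c * Fintype.card (VV μ M) := by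
  have h1 : ∀ a : ZMod M, ∑ v : VV μ M, φ v (∑ i, v i) = ∑ v : VV μ M, φ v (∑ i, v i + a) := by
    intro a
    rw [← Equiv.sum_comp (Equiv.addRight (Pi.single j a : VV μ M))]
    refine Finset.sum_congr rfl fun v _ => ?_
    simp only [Equiv.coe_addRight]
    rw [hφ]
    congr 1
    simp [Finset.sum_add_distrib]
  calc (M : ℝ≥0∞) * ∑ v : VV μ M, φ v (∑ i, v i)
      = ∑ a : ZMod M, ∑ v : VV μ M, φ v (∑ i, v i) := by
        rw [Finset.sum_const, Finset.card_univ, ZMod.card, nsmul_eq_mul]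
    _ = ∑ a : ZMod M, ∑ v : VV μ M, φ v (∑ i, v i + a) := Finset.sum_congr rfl fun a _ => h1 a
    _ = ∑ v : VV μ M, ∑ a : ZMod M, φ v (∑ i, v i + a) := Finset.sum_comm
    _ = ∑ v : VV μ M, ∑ s : ZMod M, φ v s := by
        refine Finset.sum_congr rfl fun v _ => ?_
        exact Equiv.sum_comp (Equiv.addLeft (∑ i, v i)) (φ v)
    _ ≤ ∑ v : VV μ M, c := Finset.sum_le_sum fun v _ => hc v
    _ = c * Fintype.card (VV μ M) := by
        rw [Finset.sum_const, Finset.card_univ, nsmul_eq_mul, mul_comm]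

lemma miss (P : Multiset (SS μ M)) (hP : P.card ≤ μ) : ∃ j : Fin (μ + 1), Sum.inl j ∉ P := by
  classical
  by_contra h
  push Not at h
  have h1 : (Finset.univ.image (Sum.inl : Fin (μ + 1) → SS μ M)) ⊆ P.toFinset := by
    intro a ha
    obtain ⟨j, -, rfl⟩ := Finset.mem_image.1 ha
    exact Multiset.mem_toFinset.2 (h j)
  have h2 := Finset.card_le_card h1
  rw [Finset.card_image_of_injective _ Sum.inl_injective] at h2
  have h3 := Multiset.toFinset_card_le P
  simp at h2
  omega

lemma map_shift (P : Multiset (SS μ M)) (j : Fin (μ + 1)) (hj : Sum.inl j ∉ P) (v : VV μ M)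
    (a : ZMod M) :
    Multiset.map (fun b => (b, gg (v + Pi.single j a) b)) P =
      Multiset.map (fun b => (b, gg v b)) P := by
  refine Multiset.map_congr rfl fun b hb => ?_
  rcases b with i | s
  · have : i ≠ j := fun h => hj (h ▸ hb)
    simp [gg, this]
  · rfl

lemma sum_inr_le (q : PMF (SS μ M)) : ∑ s : ZMod M, q (Sum.inr s) ≤ 1 := by
  rw [← q.tsum_coe, tsum_fintype, Fintype.sum_sum_type]
  exact le_add_left le_rfl

variable (A : Alg (SS μ M) μ)

lemma term2 (P : Multiset (SS μ M)) (hP : P.card ≤ μ) :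
    (M : ℝ≥0∞) * ∑ v : VV μ M, A.sample (Multiset.map (fun b => (b, gg v b)) P)
      (Sum.inr (∑ i, v i)) ≤ 1 * Fintype.card (VV μ M) := by
  obtain ⟨j, hj⟩ := miss P hP
  exact indep (fun v s => A.sample (Multiset.map (fun b => (b, gg v b)) P) (Sum.inr s)) j
    (fun v a => by simp only [map_shift P j hj]) 1 (fun v => sum_inr_le _)

lemma term1 (l : List (SS μ M)) (hl : l.length ≤ μ) :
    (M : ℝ≥0∞) * ∑ v : VV μ M,
      (if (Sum.inr (∑ i, v i) : SS μ M) ∈ Multiset.ofList l then (1 : ℝ≥0∞) else 0) ≤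
      μ * Fintype.card (VV μ M) := by
  refine indep (fun _ s => if (Sum.inr s : SS μ M) ∈ Multiset.ofList l then (1 : ℝ≥0∞) else 0) 0
    (fun _ _ => rfl) μ fun _ => ?_
  rw [Finset.sum_boole]
  have : (Finset.univ.filter fun s : ZMod M =>
      (Sum.inr s : SS μ M) ∈ Multiset.ofList l).card ≤ μ := by
    refine le_trans ?_ ((List.toFinset_card_le l).trans hl)
    refine Finset.card_le_card_of_injOn Sum.inr ?_ Sum.inr_injective.injOn
    intro s hs
    simpa using hs
  exact_mod_cast this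

lemma erase_bound (g : SS μ M → ℝ) (P : Multiset (SS μ M)) (hP : P ≠ 0) (o : SS μ M) :
    ∑' p, A.remove (Multiset.map (fun a => (a, g a)) P) p *
      A.sample ((Multiset.map (fun a => (a, g a)) P).erase p) o ≤
    ∑ a ∈ P.toFinset, A.sample (Multiset.map (fun a => (a, g a)) (P.erase a)) o := by
  have hinj : Function.Injective fun a : SS μ M => (a, g a) := fun a b h => congrArg Prod.fst h
  rw [tsum_eq_sum (s := P.toFinset.image fun a => (a, g a))]
  · rw [Finset.sum_image fun a _ b _ h => hinj h]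
    refine Finset.sum_le_sum fun a _ => ?_
    rw [Multiset.map_erase _ hinj]
    exact mul_le_of_le_one_left' (PMF.coe_le_one _ _)
  · intro p hp
    refine mul_eq_zero_of_left ?_ _
    by_contra h
    have := A.remove_mem (Multiset.map (fun a => (a, g a)) P) (by simpa using hP) p
      (by simpa using h)
    apply hp
    obtain ⟨a, ha, rfl⟩ := Multiset.mem_map.1 this
    exact Finset.mem_image.2 ⟨a, Multiset.mem_toFinset.2 ha, rfl⟩

lemma term3 (P : Multiset (SS μ M)) (hP : P.card ≤ μ) :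
    (M : ℝ≥0∞) * ∑ v : VV μ M, ∑' y, A.sample (Multiset.map (fun a => (a, gg v a)) P) y *
        ∑' p, A.remove (Multiset.map (fun a => (a, gg v a)) (y ::ₘ P)) p *
          A.sample ((Multiset.map (fun a => (a, gg v a)) (y ::ₘ P)).erase p)
            (Sum.inr (∑ i, v i)) ≤ (μ + 2 : ℕ) * Fintype.card (VV μ M) := by
  obtain ⟨j, hj⟩ := miss P hP
  set Q : Multiset (SS μ M) := Sum.inl j ::ₘ P with hQ
  let φ : VV μ M → ZMod M → ℝ≥0∞ := fun v s =>
    ∑ y ∈ Finset.univ.erase (Sum.inl j), A.sample (Multiset.map (fun a => (a, gg v a)) P) y *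
        ∑' p, A.remove (Multiset.map (fun a => (a, gg v a)) (y ::ₘ P)) p *
          A.sample ((Multiset.map (fun a => (a, gg v a)) (y ::ₘ P)).erase p) (Sum.inr s)
  have h1 : (M : ℝ≥0∞) * ∑ v : VV μ M, φ v (∑ i, v i) ≤ 1 * Fintype.card (VV μ M) := by
    refine indep φ j ?_ 1 ?_
    · intro v a
      funext s
      refine Finset.sum_congr rfl fun y hy => ?_
      have hy' : Sum.inl j ∉ y ::ₘ P := by
        rw [Multiset.mem_cons]
        rintro (h | h)
        · exact (Finset.mem_erase.1 hy).1 h.symm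
        · exact hj h
      rw [map_shift P j hj, map_shift _ j hy']
    · intro v
      simp only [φ]
      rw [Finset.sum_comm]
      refine le_trans (Finset.sum_le_sum fun y _ => ?_)
        (le_trans (ENNReal.sum_le_tsum _) (le_of_eq
          (A.sample (Multiset.map (fun a => (a, gg v a)) P)).tsum_coe))
      rw [← Finset.mul_sum]
      refine mul_le_of_le_one_right' ?_
      rw [← Summable.tsum_finsetSum (fun _ _ => ENNReal.summable)]
      refine le_trans (ENNReal.tsum_le_tsum fun p => ?_) (le_of_eq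
        (A.remove (Multiset.map (fun a => (a, gg v a)) (y ::ₘ P))).tsum_coe)
      rw [← Finset.mul_sum]
      exact mul_le_of_le_one_right' (sum_inr_le _)
  have h2 : (M : ℝ≥0∞) * ∑ v : VV μ M, ∑ a ∈ Q.toFinset,
      A.sample (Multiset.map (fun a => (a, gg v a)) (Q.erase a)) (Sum.inr (∑ i, v i)) ≤
      (μ + 1 : ℕ) * Fintype.card (VV μ M) := by
    rw [Finset.sum_comm, Finset.mul_sum]
    have hc : Q.toFinset.card ≤ μ + 1 := by
      have := Multiset.toFinset_card_le Q
      rw [hQ, Multiset.card_cons] at this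
      rw [hQ]; omega
    refine le_trans (Finset.sum_le_sum (g := fun _ => (1 : ℝ≥0∞) * Fintype.card (VV μ M))
      fun a ha => term2 A _ ?_) ?_
    · rw [Multiset.card_erase_of_mem (Multiset.mem_toFinset.1 ha), hQ, Multiset.card_cons]
      simpa using hP
    · rw [Finset.sum_const, nsmul_eq_mul, one_mul]
      exact mul_le_mul_left (by exact_mod_cast hc) _
  have e : ((μ + 2 : ℕ) : ℝ≥0∞) * Fintype.card (VV μ M) =
      1 * Fintype.card (VV μ M) + (μ + 1 : ℕ) * Fintype.card (VV μ M) := by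
    push_cast; ring
  rw [e]
  refine le_trans ?_ (add_le_add h1 h2)
  rw [← mul_add, ← Finset.sum_add_distrib]
  refine mul_le_mul_right (Finset.sum_le_sum fun v _ => ?_) _
  rw [tsum_fintype, ← Finset.sum_erase_add _ _ (Finset.mem_univ (Sum.inl j))]
  refine add_le_add le_rfl ?_
  refine le_trans (mul_le_of_le_one_left' (PMF.coe_le_one _ _)) ?_
  exact erase_bound A (gg v) Q (by simp [hQ]) _

lemma W_avg : (M : ℝ≥0∞) * ∑ v : VV μ M, W A (ff v) (Sum.inr (∑ i, v i)) ≤
    (2 * μ + 3 : ℕ) * Fintype.card (VV μ M) := by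
  have e : ∀ v : VV μ M, W A (ff v) (Sum.inr (∑ i, v i)) = ∑' x, A.init x *
      ((step A (ff v) (List.ofFn x, Multiset.map (fun a => (a, ff v a))
        (Multiset.ofList (List.ofFn x)))).bind (step A (ff v))).toOuterMeasure
        {s | Sum.inr (∑ i, v i) ∈ s.1} := by
    intro v
    unfold W run run run
    rw [PMF.bind_map, PMF.bind_bind, PMF.toOuterMeasure_bind_apply]
    rfl
  simp only [e]
  rw [← Summable.tsum_finsetSum (fun _ _ => ENNReal.summable), ← ENNReal.tsum_mul_left]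
  have e2 : ((2 * μ + 3 : ℕ) : ℝ≥0∞) * Fintype.card (VV μ M) =
      ∑' x, A.init x * (((2 * μ + 3 : ℕ) : ℝ≥0∞) * Fintype.card (VV μ M)) := by
    rw [ENNReal.tsum_mul_right, PMF.tsum_coe, one_mul]
  rw [e2]
  refine ENNReal.tsum_le_tsum fun x => ?_
  rw [← Finset.mul_sum, mul_left_comm]
  refine mul_le_mul_right ?_ _
  have hl : (List.ofFn x).length ≤ μ := by simp
  have hP : (Multiset.ofList (List.ofFn x)).card ≤ μ := by simp
  have t1 := term1 (List.ofFn x) hl
  have t2 := term2 A _ hP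
  have t3 := term3 A _ hP
  have e3 : ((2 * μ + 3 : ℕ) : ℝ≥0∞) * Fintype.card (VV μ M) =
      μ * Fintype.card (VV μ M) + 1 * Fintype.card (VV μ M) +
        (μ + 2 : ℕ) * Fintype.card (VV μ M) := by
    push_cast; ring
  rw [e3]
  refine le_trans ?_ (add_le_add (add_le_add t1 t2) t3)
  rw [← mul_add, ← mul_add, ← Finset.sum_add_distrib, ← Finset.sum_add_distrib]
  refine mul_le_mul_right (Finset.sum_le_sum fun v _ => ?_) _
  exact two_hit A (ff v) (gg v) (Sum.inr (∑ i, v i)) (ff_eq_gg v) (List.ofFn x)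

lemma exists_W : ∃ v : VV μ M, (M : ℝ≥0∞) * W A (ff v) (Sum.inr (∑ i, v i)) ≤ (2 * μ + 3 : ℕ) := by
  obtain ⟨v, -, hv⟩ := Finset.exists_min_image Finset.univ
    (fun v : VV μ M => W A (ff v) (Sum.inr (∑ i, v i))) Finset.univ_nonempty
  refine ⟨v, ?_⟩
  have h1 := W_avg A
  have h2 : (Fintype.card (VV μ M) : ℝ≥0∞) * W A (ff v) (Sum.inr (∑ i, v i)) ≤
      ∑ u : VV μ M, W A (ff u) (Sum.inr (∑ i, u i)) := by
    rw [← nsmul_eq_mul, ← Finset.card_univ, ← Finset.sum_const]
    exact Finset.sum_le_sum fun u hu => hv u hu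
  have h3 := (mul_le_mul_right h2 (M : ℝ≥0∞)).trans h1
  rw [mul_comm (Fintype.card (VV μ M) : ℝ≥0∞), ← mul_assoc] at h3
  exact (ENNReal.mul_le_mul_iff_left (by exact_mod_cast Fintype.card_ne_zero)
    (ENNReal.natCast_ne_top _)).1 h3

variable (μ M)

noncomputable def U : Alg (SS μ M) (μ + 1) where
  init := PMF.pure Sum.inl
  sample X := PMF.pure (Sum.inr (X.map fun p => ((⌊p.2⌋₊ : ℕ) : ZMod M)).sum)
  remove X := PMF.pure
    (if h : X ≠ 0 then (Multiset.exists_mem_of_ne_zero h).choose else (Sum.inl 0, 0))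
  remove_mem X hX p hp := by
    rw [PMF.mem_support_pure_iff] at hp
    rw [hp, dif_pos hX]
    exact (Multiset.exists_mem_of_ne_zero hX).choose_spec

lemma U_tail (v : VV μ M) (t : ℕ) (ht : μ + 2 ≤ t) : tail (U μ M) (ff v) t = 0 := by
  have h1 : tail (U μ M) (ff v) t ≤ (run (U μ M) (ff v) t).toOuterMeasure
      {s | Sum.inr (∑ i, v i) ∉ s.1.take (μ + 2)} := by
    refine (run (U μ M) (ff v) t).toOuterMeasure.mono fun s hs h => ?_
    refine hs _ ?_ (ff_max' v)
    have : s.1.take (μ + 2) = (s.1.take t).take (μ + 2) := by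
      rw [List.take_take, min_eq_left ht]
    rw [this] at h
    exact List.mem_of_mem_take h
  rw [run_take (U μ M) (ff v) 1 t (μ + 2) (by omega) (by omega)
    (fun l => Sum.inr (∑ i, v i) ∉ l)] at h1
  refine le_antisymm (h1.trans (le_of_eq ?_)) zero_le
  rw [PMF.toOuterMeasure_apply_eq_zero_iff, Set.disjoint_left]
  intro s hs h
  apply h
  have hlen := run_len _ _ 1 s hs
  rw [List.take_of_length_le (by omega)]
  unfold run run at hs
  rw [PMF.mem_support_bind_iff] at hs
  obtain ⟨s0, h0, hs⟩ := hs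
  rw [PMF.mem_support_map_iff] at h0
  obtain ⟨x, hx, rfl⟩ := h0
  have hx' : x = Sum.inl := by simpa [U] using hx
  subst hx'
  unfold step at hs
  rw [PMF.mem_support_bind_iff] at hs
  obtain ⟨y, hy, hs⟩ := hs
  rw [PMF.mem_support_map_iff] at hs
  obtain ⟨p, -, rfl⟩ := hs
  have hy' : y = Sum.inr (∑ i, v i) := by
    simp only [U, PMF.mem_support_pure_iff] at hy
    rw [hy, Multiset.map_map, Multiset.map_coe, Multiset.sum_coe, List.map_ofFn, List.sum_ofFn]
    congr 1
    refine Finset.sum_congr rfl fun i _ => ?_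
    show ((⌊((v i).val : ℝ)⌋₊ : ℕ) : ZMod M) = v i
    rw [Nat.floor_natCast, ZMod.natCast_zmod_val]
  simp [hy']

lemma U_ET (v : VV μ M) : ET (U μ M) (ff v) ≤ (μ + 2 : ℕ) := by
  unfold ET
  rw [tsum_eq_sum (s := Finset.range (μ + 2))]
  · refine le_trans (Finset.sum_le_sum (g := fun _ => (1 : ℝ≥0∞)) fun t _ => om_le_one _ _) ?_
    simp
  · intro t ht
    exact U_tail μ M v t (by simpa using ht)

end concrete

theorem result : ∀ μ : ℕ, ∃ (S : Type) (_ : Fintype S) (_ : DecidableEq S) (F : Set (S → ℝ)),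
    C S (μ + 1) F < C S μ F := by
  intro μ
  obtain ⟨M, hM⟩ : ∃ M : ℕ, M = 2 * (μ + 3) * (2 * μ + 3) := ⟨_, rfl⟩
  have : NeZero M := ⟨by rw [hM]; positivity⟩
  refine ⟨SS μ M, inferInstance, inferInstance, Set.range ff, ?_⟩
  have hU : C (SS μ M) (μ + 1) (Set.range ff) ≤ (μ + 2 : ℕ) := by
    refine (iInf_le _ (U μ M)).trans (iSup₂_le ?_)
    rintro f ⟨v, rfl⟩
    exact U_ET μ M v
  have hL : ((μ + 2 : ℕ) : ℝ≥0∞) + 2⁻¹ ≤ C (SS μ M) μ (Set.range ff) := by
    refine le_iInf fun A => ?_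
    obtain ⟨v, hv⟩ := exists_W A
    refine le_trans ?_ (le_iSup₂_of_le (ff v) ⟨v, rfl⟩ le_rfl)
    have h1 := ET_lower A (ff v) _ (ff_max v)
    have h2 : ((μ + 3 : ℕ) : ℝ≥0∞) * W A (ff v) (Sum.inr (∑ i, v i)) ≤ 2⁻¹ := by
      have e : (M : ℝ≥0∞) = (2 * μ + 3 : ℕ) * (2 * (μ + 3 : ℕ)) := by
        rw [hM]; push_cast; ring
      have hv' : ((2 * μ + 3 : ℕ) : ℝ≥0∞) * (2 * ((μ + 3 : ℕ) * W A (ff v) (Sum.inr (∑ i, v i)))) ≤
          (2 * μ + 3 : ℕ) * 1 := by
        rw [mul_one]
        refine le_trans (le_of_eq ?_) hv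
        conv_rhs => rw [e]
        ring
      have h3 := (ENNReal.mul_le_mul_iff_right (by exact_mod_cast (by omega : 2 * μ + 3 ≠ 0))
        (ENNReal.natCast_ne_top _)).1 hv'
      rw [ENNReal.le_inv_iff_mul_le, mul_comm]
      exact h3
    have h3 : ((μ + 2 : ℕ) : ℝ≥0∞) + 2⁻¹ + 2⁻¹ ≤ ET A (ff v) + 2⁻¹ := by
      rw [add_assoc, ENNReal.inv_two_add_inv_two]
      refine le_trans (le_of_eq ?_) (h1.trans (add_le_add le_rfl h2))
      push_cast; ring
    exact (ENNReal.add_le_add_iff_right (by simp)).1 h3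
  refine lt_of_le_of_lt hU (lt_of_lt_of_le ?_ hL)
  exact ENNReal.lt_add_right (by simp) (by simp)

end Pool.Agent.Results.MP_baa74b_lc.Sep
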